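import Pool.Agent.U645.VS.Stm

/-! Project VS, package B: the construction of Bose. -/

set_option autoImplicit false

open Finset

namespace Pool.Agent.U884.VS

open Pool.Agent.U645.VS

/-- pieces on any finite set -/
theorem piece_of {α : Type} [Fintype α] (v s : ℕ) (hc : Fintype.card α = v)
    (w : α → α → α → ℕ) (h1 : IsTri w) (h2 : ∀ x y, x ≠ y → ∑ z, w x y z = 0 ∨ ∑ z, w x y z = 2)
    (h3 : ∑ x, ∑ y, ∑ z, w x y z = 12 * s) : Piece v s := by
  classical
  let e : Fin v ≃ α := (Fintype.equivFinOfCardEq hc).symm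
  refine ⟨fun x y z => w (e x) (e y) (e z), ⟨?_, ?_, ?_⟩, ?_, ?_⟩
  · intro x y z
    exact h1.1 _ _ _
  · intro x y z
    exact h1.2.1 _ _ _
  · intro x y
    exact h1.2.2 _ _
  · intro x y hxy
    have h4 : ∑ z, w (e x) (e y) (e z) = ∑ z, w (e x) (e y) z :=
      Equiv.sum_comp e (fun z => w (e x) (e y) z)
    rw [h4]
    exact h2 _ _ (fun h => hxy (e.injective h))
  · rw [← h3]
    rw [← Equiv.sum_comp e (fun x => ∑ y, ∑ z, w x y z)]
    refine Finset.sum_congr rfl fun x _ => ?_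
    rw [← Equiv.sum_comp e (fun y => ∑ z, w (e x) y z)]
    refine Finset.sum_congr rfl fun y _ => ?_
    exact Equiv.sum_comp e (fun z => w (e x) (e y) z)

section a

variable {n : ℕ} (m : Fin n → Fin n → Fin n)

/-- the first kind of triples, in one order -/
def Ba (p q r : Fin n × Fin 3) : ℕ :=
  if p.1 ≠ q.1 ∧ p.2 = q.2 ∧ r.2 = p.2 + 1 then
    (if m p.1 q.1 = r.1 then 1 else 0) + (if m q.1 p.1 = r.1 then 1 else 0) else 0

/-- the first kind of triples -/
def wa (p q r : Fin n × Fin 3) : ℕ := Ba m p q r + Ba m q r p + Ba m r p q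

theorem Ba_symm (p q r : Fin n × Fin 3) : Ba m p q r = Ba m q p r := by
  unfold Ba
  by_cases h : p.1 ≠ q.1 ∧ p.2 = q.2 ∧ r.2 = p.2 + 1
  · have h' : q.1 ≠ p.1 ∧ q.2 = p.2 ∧ r.2 = q.2 + 1 := ⟨h.1.symm, h.2.1.symm, by rw [← h.2.1]; exact h.2.2⟩
    rw [if_pos h, if_pos h', add_comm]
  · have h' : ¬ (q.1 ≠ p.1 ∧ q.2 = p.2 ∧ r.2 = q.2 + 1) := by
      rintro ⟨h1, h2, h3⟩
      exact h ⟨h1.symm, h2.symm, by rw [← h2]; exact h3⟩
    rw [if_neg h, if_neg h']

theorem Ba_self (p r : Fin n × Fin 3) : Ba m p p r = 0 := by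
  unfold Ba
  rw [if_neg]
  rintro ⟨h, -⟩
  exact h rfl

theorem Ba_self' (p r : Fin n × Fin 3) : Ba m p r p = 0 := by
  unfold Ba
  rw [if_neg]
  rintro ⟨-, -, h⟩
  revert h
  generalize p.2 = i
  revert i
  decide

theorem wa_tri : IsTri (wa m) := by
  refine ⟨?_, ?_, ?_⟩
  · intro x y z
    unfold wa
    rw [Ba_symm m x y z, Ba_symm m y z x, Ba_symm m z x y]
    ring
  · intro x y z
    unfold wa
    rw [Ba_symm m x y z, Ba_symm m y z x, Ba_symm m z x y]
    ring
  · intro x y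
    unfold wa
    rw [Ba_self, Ba_self', Ba_symm m y x x, Ba_self']

variable {m}

theorem count_l (hm : IsIQ n m) (x y : Fin n) : ∑ z, (if m x z = y then 1 else 0) = 1 := by
  obtain ⟨z0, hz⟩ := (Finite.injective_iff_surjective.1 (hm.2.1 x)) y
  rw [Finset.sum_eq_single z0]
  · rw [if_pos hz]
  · intro z _ hne
    rw [if_neg]
    intro h
    exact hne (hm.2.1 x (h.trans hz.symm))
  · intro h
    exact absurd (Finset.mem_univ _) h

theorem count_r (hm : IsIQ n m) (x y : Fin n) : ∑ z, (if m z x = y then 1 else 0) = 1 := by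
  obtain ⟨z0, hz⟩ := (Finite.injective_iff_surjective.1 (hm.2.2 x)) y
  rw [Finset.sum_eq_single z0]
  · rw [if_pos hz]
  · intro z _ hne
    rw [if_neg]
    intro h
    exact hne (hm.2.2 x (h.trans hz.symm))
  · intro h
    exact absurd (Finset.mem_univ _) h

theorem sum1 (p q : Fin n × Fin 3) :
    ∑ r, Ba m p q r = if p.1 ≠ q.1 ∧ p.2 = q.2 then 2 else 0 := by
  by_cases h : p.1 ≠ q.1 ∧ p.2 = q.2
  · rw [if_pos h]
    have h1 : ∀ r, Ba m p q r = if r.2 = p.2 + 1 then
        (if m p.1 q.1 = r.1 then 1 else 0) + (if m q.1 p.1 = r.1 then 1 else 0) else 0 := by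
      intro r
      unfold Ba
      by_cases h2 : r.2 = p.2 + 1
      · rw [if_pos ⟨h.1, h.2, h2⟩, if_pos h2]
      · rw [if_neg (fun h3 => h2 h3.2.2), if_neg h2]
    rw [Finset.sum_congr rfl (fun r _ => h1 r), Fintype.sum_prod_type]
    simp [Finset.sum_add_distrib]
  · rw [if_neg h]
    apply Finset.sum_eq_zero
    intro r _
    unfold Ba
    rw [if_neg (fun h3 => h ⟨h3.1, h3.2.1⟩)]

theorem sum2 (hm : IsIQ n m) (p q : Fin n × Fin 3) :
    ∑ r, Ba m r p q = if p.1 ≠ q.1 ∧ q.2 = p.2 + 1 then 2 else 0 := by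
  have h1 : ∀ r, Ba m r p q = if r.2 = p.2 then (if r.1 ≠ p.1 ∧ q.2 = p.2 + 1 then
      (if m r.1 p.1 = q.1 then 1 else 0) + (if m p.1 r.1 = q.1 then 1 else 0) else 0) else 0 := by
    intro r
    unfold Ba
    by_cases h2 : r.2 = p.2
    · rw [if_pos h2]
      by_cases h3 : r.1 ≠ p.1 ∧ q.2 = p.2 + 1
      · rw [if_pos h3, if_pos ⟨h3.1, h2, by rw [h2]; exact h3.2⟩]
      · rw [if_neg h3, if_neg]
        rintro ⟨a, b, c⟩
        exact h3 ⟨a, by rw [← h2]; exact c⟩
    · rw [if_neg h2, if_neg (fun h3 => h2 h3.2.1)]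
  rw [Finset.sum_congr rfl (fun r _ => h1 r), Fintype.sum_prod_type]
  simp only [Finset.sum_ite_eq', Finset.mem_univ, if_true]
  by_cases h : p.1 ≠ q.1 ∧ q.2 = p.2 + 1
  · rw [if_pos h]
    have h4 : ∀ z, (if z ≠ p.1 ∧ q.2 = p.2 + 1 then
        (if m z p.1 = q.1 then 1 else 0) + (if m p.1 z = q.1 then 1 else 0) else 0)
        = (if m z p.1 = q.1 then 1 else 0) + (if m p.1 z = q.1 then 1 else 0) := by
      intro z
      by_cases h5 : z = p.1
      · rw [if_neg (fun h6 => h6.1 h5), h5, hm.1, if_neg h.1]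
      · rw [if_pos ⟨h5, h.2⟩]
    rw [Finset.sum_congr rfl (fun z _ => h4 z), Finset.sum_add_distrib, count_r hm, count_l hm]
  · rw [if_neg h]
    apply Finset.sum_eq_zero
    intro z _
    by_cases h5 : z ≠ p.1 ∧ q.2 = p.2 + 1
    · have h6 : p.1 = q.1 := by
        by_contra h7
        exact h ⟨h7, h5.2⟩
      have a1 : ¬ m z p.1 = q.1 := by
        intro h8
        rw [← h6] at h8
        exact h5.1 (hm.2.2 p.1 (h8.trans (hm.1 p.1).symm))
      have a2 : ¬ m p.1 z = q.1 := by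
        intro h8
        rw [← h6] at h8
        exact h5.1 (hm.2.1 p.1 (h8.trans (hm.1 p.1).symm))
      rw [if_pos h5, if_neg a1, if_neg a2, add_zero]
    · rw [if_neg h5]

theorem wa_sum (hm : IsIQ n m) (p q : Fin n × Fin 3) :
    ∑ r, wa m p q r = if p.1 = q.1 then 0 else 2 := by
  unfold wa
  rw [Finset.sum_add_distrib, Finset.sum_add_distrib, sum1, sum2 hm]
  have h1 : ∑ r, Ba m q r p = ∑ r, Ba m r q p := Finset.sum_congr rfl fun r _ => Ba_symm m _ _ _
  rw [h1, sum2 hm]
  by_cases h : p.1 = q.1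
  · rw [if_pos h, if_neg (fun h2 => h2.1 h), if_neg (fun h2 => h2.1 h.symm), if_neg (fun h2 => h2.1 h)]
  · rw [if_neg h]
    have e1 : (p.1 ≠ q.1 ∧ p.2 = q.2) ↔ p.2 = q.2 := ⟨fun h => h.2, fun h2 => ⟨h, h2⟩⟩
    have e2 : (q.1 ≠ p.1 ∧ p.2 = q.2 + 1) ↔ p.2 = q.2 + 1 :=
      ⟨fun h => h.2, fun h2 => ⟨fun h3 => h h3.symm, h2⟩⟩
    have e3 : (p.1 ≠ q.1 ∧ q.2 = p.2 + 1) ↔ q.2 = p.2 + 1 := ⟨fun h => h.2, fun h2 => ⟨h, h2⟩⟩
    simp only [e1, e2, e3]
    generalize p.2 = i
    generalize q.2 = j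
    revert i j
    decide

end a

section b

variable {n c : ℕ}

/-- the local coordinate -/
def loc (x : Fin n) : Fin c ⊕ (Fin n × Fin 3) → Option (Fin c ⊕ Fin 3)
  | Sum.inl j => some (Sum.inl j)
  | Sum.inr p => if p.1 = x then some (Sum.inr p.2) else none

/-- extension by zero -/
def ex {γ : Type} (u : γ → γ → γ → ℕ) : Option γ → Option γ → Option γ → ℕ
  | some a, some b, some c => u a b c
  | _, _, _ => 0

theorem ex_symm {γ : Type} {u : γ → γ → γ → ℕ} (h : IsTri u) (a b c : Option γ) :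
    ex u a b c = ex u b a c := by
  rcases a with _ | a <;> rcases b with _ | b <;> rcases c with _ | c <;>
    first | rfl | exact h.1 a b c

theorem ex_symm' {γ : Type} {u : γ → γ → γ → ℕ} (h : IsTri u) (a b c : Option γ) :
    ex u a b c = ex u a c b := by
  rcases a with _ | a <;> rcases b with _ | b <;> rcases c with _ | c <;>
    first | rfl | exact h.2.1 a b c

theorem ex_self {γ : Type} {u : γ → γ → γ → ℕ} (h : IsTri u) (a c : Option γ) :
    ex u a a c = 0 := by
  rcases a with _ | a <;> rcases c with _ | c <;>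
    first | rfl | exact h.2.2 a c

/-- sums of local functions -/
theorem loc_sum (x : Fin n) (F : Option (Fin c ⊕ Fin 3) → ℕ) (hF : F none = 0) :
    ∑ r, F (loc x r) = ∑ g, F (some g) := by
  rw [Fintype.sum_sum_type, Fintype.sum_sum_type]
  congr 1
  rw [Fintype.sum_prod_type, Finset.sum_eq_single x]
  · refine Finset.sum_congr rfl fun i _ => ?_
    change F (if x = x then some (Sum.inr i) else none) = _
    rw [if_pos rfl]
  · intro y _ hy
    apply Finset.sum_eq_zero
    intro i _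
    change F (if y = x then some (Sum.inr i) else none) = _
    rw [if_neg hy, hF]
  · intro h
    exact absurd (Finset.mem_univ _) h

/-- the second kind of triples -/
def wb (u : Fin n → (Fin c ⊕ Fin 3) → (Fin c ⊕ Fin 3) → (Fin c ⊕ Fin 3) → ℕ)
    (p q r : Fin c ⊕ (Fin n × Fin 3)) : ℕ :=
  ∑ x, ex (u x) (loc x p) (loc x q) (loc x r)

variable {u : Fin n → (Fin c ⊕ Fin 3) → (Fin c ⊕ Fin 3) → (Fin c ⊕ Fin 3) → ℕ}

theorem wb_tri (hu : ∀ x, IsTri (u x)) : IsTri (wb u) := by
  refine ⟨?_, ?_, ?_⟩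
  · intro p q r
    exact Finset.sum_congr rfl fun x _ => ex_symm (hu x) _ _ _
  · intro p q r
    exact Finset.sum_congr rfl fun x _ => ex_symm' (hu x) _ _ _
  · intro p q
    exact Finset.sum_eq_zero fun x _ => ex_self (hu x) _ _

theorem ex_none {γ : Type} (u : γ → γ → γ → ℕ) (a b : Option γ) : ex u a b none = 0 := by
  rcases a with _ | a <;> rcases b with _ | b <;> rfl

theorem ex_none2 {γ : Type} (u : γ → γ → γ → ℕ) (a b : Option γ) : ex u a none b = 0 := by
  rcases a with _ | a <;> rcases b with _ | b <;> rfl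

theorem ex_none1 {γ : Type} (u : γ → γ → γ → ℕ) (a b : Option γ) : ex u none a b = 0 := by
  rcases a with _ | a <;> rcases b with _ | b <;> rfl

theorem wb_sum (p q : Fin c ⊕ (Fin n × Fin 3)) :
    ∑ r, wb u p q r = ∑ x, ∑ g, ex (u x) (loc x p) (loc x q) (some g) := by
  unfold wb
  rw [Finset.sum_comm]
  refine Finset.sum_congr rfl fun x _ => ?_
  exact loc_sum x (fun o => ex (u x) (loc x p) (loc x q) o) (ex_none _ _ _)

theorem wb_total : ∑ p, ∑ q, ∑ r, wb u p q r = ∑ x, ∑ a, ∑ b, ∑ g, u x a b g := by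
  have h1 : ∀ p q : Fin c ⊕ (Fin n × Fin 3), ∑ r, wb u p q r
      = ∑ x, ∑ g, ex (u x) (loc x p) (loc x q) (some g) := fun p q => wb_sum p q
  have h2 : ∀ p : Fin c ⊕ (Fin n × Fin 3), ∑ q, ∑ r, wb u p q r
      = ∑ x, ∑ b, ∑ g, ex (u x) (loc x p) (some b) (some g) := by
    intro p
    rw [Finset.sum_congr rfl (fun q _ => h1 p q), Finset.sum_comm]
    refine Finset.sum_congr rfl fun x _ => ?_
    exact loc_sum x (fun o => ∑ g, ex (u x) (loc x p) o (some g))
      (Finset.sum_eq_zero fun g _ => ex_none2 _ _ _)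
  rw [Finset.sum_congr rfl (fun p _ => h2 p), Finset.sum_comm]
  refine Finset.sum_congr rfl fun x _ => ?_
  exact loc_sum x (fun o => ∑ b, ∑ g, ex (u x) o (some b) (some g))
    (Finset.sum_eq_zero fun b _ => Finset.sum_eq_zero fun g _ => ex_none1 _ _ _)

theorem wb_rr (p q : Fin n × Fin 3) :
    ∑ r, wb u (Sum.inr p) (Sum.inr q) r
      = if p.1 = q.1 then ∑ g, u p.1 (Sum.inr p.2) (Sum.inr q.2) g else 0 := by
  rw [wb_sum]
  by_cases h : p.1 = q.1
  · rw [if_pos h, Finset.sum_eq_single p.1]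
    · refine Finset.sum_congr rfl fun g _ => ?_
      change ex (u p.1) (if p.1 = p.1 then some (Sum.inr p.2) else none)
        (if q.1 = p.1 then some (Sum.inr q.2) else none) (some g) = _
      rw [if_pos rfl, if_pos h.symm]
      rfl
    · intro x _ hx
      apply Finset.sum_eq_zero
      intro g _
      change ex (u x) (if p.1 = x then some (Sum.inr p.2) else none) _ _ = 0
      rw [if_neg (fun h => hx h.symm), ex_none1]
    · intro h
      exact absurd (Finset.mem_univ _) h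
  · rw [if_neg h]
    apply Finset.sum_eq_zero
    intro x _
    apply Finset.sum_eq_zero
    intro g _
    change ex (u x) (if p.1 = x then some (Sum.inr p.2) else none)
      (if q.1 = x then some (Sum.inr q.2) else none) _ = 0
    by_cases h1 : p.1 = x
    · rw [if_neg (fun h2 : q.1 = x => h (h1.trans h2.symm)), ex_none2]
    · rw [if_neg h1, ex_none1]

theorem wb_lr (j : Fin c) (q : Fin n × Fin 3) :
    ∑ r, wb u (Sum.inl j) (Sum.inr q) r = ∑ g, u q.1 (Sum.inl j) (Sum.inr q.2) g := by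
  rw [wb_sum, Finset.sum_eq_single q.1]
  · refine Finset.sum_congr rfl fun g _ => ?_
    change ex (u q.1) (some (Sum.inl j)) (if q.1 = q.1 then some (Sum.inr q.2) else none) (some g) = _
    rw [if_pos rfl]
    rfl
  · intro x _ hx
    apply Finset.sum_eq_zero
    intro g _
    change ex (u x) (some (Sum.inl j)) (if q.1 = x then some (Sum.inr q.2) else none) _ = 0
    rw [if_neg (fun h => hx h.symm), ex_none2]
  · intro h
    exact absurd (Finset.mem_univ _) h

theorem wb_ll (h0 : ∀ x j j' g, u x (Sum.inl j) (Sum.inl j') g = 0) (j j' : Fin c) :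
    ∑ r, wb u (Sum.inl j) (Sum.inl j') r = 0 := by
  rw [wb_sum]
  apply Finset.sum_eq_zero
  intro x _
  apply Finset.sum_eq_zero
  intro g _
  exact h0 x j j' g

end b

section ab

variable {n c : ℕ}

/-- the first kind of triples, extended by zero -/
def wA (m : Fin n → Fin n → Fin n) : Fin c ⊕ (Fin n × Fin 3) → Fin c ⊕ (Fin n × Fin 3) →
    Fin c ⊕ (Fin n × Fin 3) → ℕ
  | Sum.inr p, Sum.inr q, Sum.inr r => wa m p q r
  | _, _, _ => 0

theorem wA_tri (m : Fin n → Fin n → Fin n) : IsTri (wA (c := c) m) := by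
  have h := wa_tri m
  refine ⟨?_, ?_, ?_⟩
  · intro x y z
    rcases x with x | x <;> rcases y with y | y <;> rcases z with z | z <;>
      first | rfl | exact h.1 x y z
  · intro x y z
    rcases x with x | x <;> rcases y with y | y <;> rcases z with z | z <;>
      first | rfl | exact h.2.1 x y z
  · intro x y
    rcases x with x | x <;> rcases y with y | y <;>
      first | rfl | exact h.2.2 x y

variable {m : Fin n → Fin n → Fin n}

theorem wA_rr (hm : IsIQ n m) (p q : Fin n × Fin 3) :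
    ∑ r : Fin c ⊕ (Fin n × Fin 3), wA m (Sum.inr p) (Sum.inr q) r = if p.1 = q.1 then 0 else 2 := by
  rw [Fintype.sum_sum_type, ← wa_sum hm p q]
  have e1 : ∑ a : Fin c, wA m (Sum.inr p) (Sum.inr q) (Sum.inl a) = 0 :=
    Finset.sum_eq_zero (fun _ _ => rfl)
  rw [e1, zero_add]
  rfl

theorem wA_l (j : Fin c) (q : Fin c ⊕ (Fin n × Fin 3)) :
    ∑ r : Fin c ⊕ (Fin n × Fin 3), wA m (Sum.inl j) q r = 0 := by
  apply Finset.sum_eq_zero
  intro r _
  rcases q with q | q <;> rcases r with r | r <;> rfl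

theorem wA_rl (p : Fin n × Fin 3) (j : Fin c) :
    ∑ r : Fin c ⊕ (Fin n × Fin 3), wA m (Sum.inr p) (Sum.inl j) r = 0 := by
  apply Finset.sum_eq_zero
  intro r _
  rcases r with r | r <;> rfl

theorem wA_total (hm : IsIQ n m) :
    ∑ p : Fin c ⊕ (Fin n × Fin 3), ∑ q : Fin c ⊕ (Fin n × Fin 3), ∑ r : Fin c ⊕ (Fin n × Fin 3),
      wA m p q r = 18 * (n * (n - 1)) := by
  rw [Fintype.sum_sum_type, Finset.sum_eq_zero, zero_add]
  · have h1 : ∀ p : Fin n × Fin 3, ∑ q : Fin c ⊕ (Fin n × Fin 3),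
        ∑ r : Fin c ⊕ (Fin n × Fin 3), wA m (Sum.inr p) q r = 6 * (n - 1) := by
      intro p
      rw [Fintype.sum_sum_type, Finset.sum_eq_zero (fun j _ => wA_rl p j), zero_add]
      rw [Finset.sum_congr rfl (fun q _ => wA_rr hm p q), Fintype.sum_prod_type]
      have h3 : ∀ x : Fin n, ∑ y : Fin 3, (if p.1 = (x, y).1 then 0 else 2)
          = 3 * (if p.1 = x then 0 else 2) := by
        intro x
        change ∑ y : Fin 3, (if p.1 = x then 0 else 2) = _
        rw [Finset.sum_const, Finset.card_univ, Fintype.card_fin, smul_eq_mul]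
      rw [Finset.sum_congr rfl (fun x _ => h3 x), ← Finset.mul_sum]
      have h2 : ∑ y : Fin n, (if p.1 = y then 0 else 2) = 2 * (n - 1) := by
        rw [Finset.sum_ite]
        simp only [Finset.sum_const_zero, zero_add, Finset.sum_const, smul_eq_mul]
        rw [Finset.filter_ne, Finset.card_erase_of_mem (Finset.mem_univ _), Finset.card_univ,
          Fintype.card_fin, mul_comm]
      rw [h2]
      ring
    rw [Finset.sum_congr rfl (fun p _ => h1 p), Finset.sum_const, Finset.card_univ,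
      Fintype.card_prod, Fintype.card_fin, Fintype.card_fin, smul_eq_mul]
    ring
  · intro j _
    exact Finset.sum_eq_zero fun q _ => wA_l j q

/-- the construction with arbitrary local parts -/
theorem bose (hm : IsIQ n m) (u : Fin n → (Fin c ⊕ Fin 3) → (Fin c ⊕ Fin 3) → (Fin c ⊕ Fin 3) → ℕ)
    (hu : ∀ x, IsTri (u x)) (h2 : ∀ x g h, g ≠ h → ∑ z, u x g h z = 0 ∨ ∑ z, u x g h z = 2)
    (h0 : ∀ x j j' g, u x (Sum.inl j) (Sum.inl j') g = 0) (s : ℕ)
    (hs : 12 * s = 18 * (n * (n - 1)) + ∑ x, ∑ a, ∑ b, ∑ g, u x a b g) : Piece (3 * n + c) s := by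
  have hA := wA_tri (c := c) m
  have hB := wb_tri hu
  apply piece_of (α := Fin c ⊕ (Fin n × Fin 3)) (3 * n + c) s ?_
    (fun p q r => wA m p q r + wb u p q r) ⟨?_, ?_, ?_⟩ ?_ ?_
  · rw [Fintype.card_sum, Fintype.card_prod, Fintype.card_fin, Fintype.card_fin, Fintype.card_fin]
    ring
  · intro x y z
    change wA m x y z + wb u x y z = wA m y x z + wb u y x z
    rw [hA.1, hB.1]
  · intro x y z
    change wA m x y z + wb u x y z = wA m x z y + wb u x z y
    rw [hA.2.1, hB.2.1]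
  · intro x y
    change wA m x x y + wb u x x y = 0
    rw [hA.2.2, hB.2.2]
  · intro x y hxy
    rw [Finset.sum_add_distrib]
    have key : ∀ (j : Fin c) (q : Fin n × Fin 3),
        (∑ z, wA m (Sum.inl j) (Sum.inr q) z) + ∑ z, wb u (Sum.inl j) (Sum.inr q) z = 0 ∨
        (∑ z, wA m (Sum.inl j) (Sum.inr q) z) + ∑ z, wb u (Sum.inl j) (Sum.inr q) z = 2 := by
      intro j q
      rw [wA_l, wb_lr, zero_add]
      exact h2 q.1 (Sum.inl j) (Sum.inr q.2) (by simp)
    rcases x with j | p <;> rcases y with j' | q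
    · left
      rw [wA_l, wb_ll h0]
    · exact key j q
    · have := key j' p
      have e1 : ∑ z, wA m (Sum.inr p) (Sum.inl j') z = ∑ z, wA m (Sum.inl j') (Sum.inr p) z :=
        Finset.sum_congr rfl fun z _ => hA.1 _ _ _
      have e2 : ∑ z, wb u (Sum.inr p) (Sum.inl j') z = ∑ z, wb u (Sum.inl j') (Sum.inr p) z :=
        Finset.sum_congr rfl fun z _ => hB.1 _ _ _
      rw [e1, e2]
      exact this
    · rw [wA_rr hm, wb_rr]
      by_cases h : p.1 = q.1
      · rw [if_pos h, if_pos h, zero_add]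
        apply h2
        intro h3
        apply hxy
        have h4 : p.2 = q.2 := by simpa using h3
        exact congrArg Sum.inr (Prod.ext h h4)
      · rw [if_neg h, if_neg h]
        right
        rfl
  · simp only [Finset.sum_add_distrib]
    rw [wA_total hm, wb_total, hs]

end ab

/-! The local parts. -/

/-- the number of the local point: `0, 1, 2` are in the fibre, `3, 4` are at infinity -/
def nb {c : ℕ} : Fin c ⊕ Fin 3 → ℕ
  | Sum.inl j => 3 + j.1
  | Sum.inr i => i.1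

/-- all triples among the points with numbers below `N`, `e` times -/
def full {c : ℕ} (N e : ℕ) (a b g : Fin c ⊕ Fin 3) : ℕ :=
  if nb a < N ∧ nb b < N ∧ nb g < N ∧ a ≠ b ∧ b ≠ g ∧ a ≠ g then e else 0

/-- all triples with exactly one point at infinity -/
def one {c : ℕ} (a b g : Fin c ⊕ Fin 3) : ℕ :=
  if a ≠ b ∧ b ≠ g ∧ a ≠ g ∧
    (if a.isLeft then 1 else 0) + (if b.isLeft then 1 else 0) + (if g.isLeft then 1 else 0) = 1
    then 1 else 0

/-- the condition on a local part -/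
def LocOK {c : ℕ} (u : Fin c ⊕ Fin 3 → Fin c ⊕ Fin 3 → Fin c ⊕ Fin 3 → ℕ) (t : ℕ) : Prop :=
  ((∀ x y z, u x y z = u y x z) ∧ (∀ x y z, u x y z = u x z y) ∧ ∀ x y, u x x y = 0) ∧
    (∀ g h, g ≠ h → ∑ z, u g h z = 0 ∨ ∑ z, u g h z = 2) ∧
    (∀ j j' g, u (Sum.inl j) (Sum.inl j') g = 0) ∧ ∑ a, ∑ b, ∑ g, u a b g = t

instance {c : ℕ} (u : Fin c ⊕ Fin 3 → Fin c ⊕ Fin 3 → Fin c ⊕ Fin 3 → ℕ) (t : ℕ) :
    Decidable (LocOK u t) := by
  unfold LocOK
  infer_instance

theorem ok0 : LocOK (c := 0) (full 3 2) 12 := by decide +kernel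
theorem ok0' : LocOK (c := 0) (full 0 0) 0 := by decide +kernel
theorem ok1 : LocOK (c := 1) (full 4 1) 24 := by decide +kernel
theorem ok1' : LocOK (c := 1) (full 3 2) 12 := by decide +kernel
theorem ok2 : LocOK (c := 2) one 36 := by decide +kernel
theorem ok2' : LocOK (c := 2) (full 4 1) 24 := by decide +kernel

theorem sum_lt (n k A B : ℕ) (hk : k ≤ n) :
    ∑ x : Fin n, (if x.1 < k then A else B) = k * A + (n - k) * B := by
  rw [Fin.sum_univ_eq_sum_range (fun i => if i < k then A else B) n]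
  obtain ⟨d, rfl⟩ := Nat.exists_eq_add_of_le hk
  rw [Finset.sum_range_add]
  have h1 : ∑ x ∈ range k, (if x < k then A else B) = k * A := by
    rw [Finset.sum_congr rfl (fun x hx => if_pos (Finset.mem_range.1 hx))]
    simp
  have h2 : ∑ x ∈ range d, (if k + x < k then A else B) = d * B := by
    rw [Finset.sum_congr rfl (fun x _ => if_neg (by omega))]
    simp
  rw [h1, h2]
  congr 2
  omega

theorem fin_of {n c k s : ℕ} {m : Fin n → Fin n → Fin n} (hm : IsIQ n m) (hk : k ≤ n)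
    {u u' : Fin c ⊕ Fin 3 → Fin c ⊕ Fin 3 → Fin c ⊕ Fin 3 → ℕ} {t t' : ℕ} (h : LocOK u t)
    (h' : LocOK u' t') (hs : 12 * s = 18 * (n * (n - 1)) + (k * t + (n - k) * t')) :
    Piece (3 * n + c) s := by
  apply bose hm (fun x => if x.1 < k then u else u')
  · intro x
    split_ifs
    · exact h.1
    · exact h'.1
  · intro x
    split_ifs
    · exact h.2.1
    · exact h'.2.1
  · intro x
    split_ifs
    · exact h.2.2.1
    · exact h'.2.2.1
  · rw [hs, ← sum_lt n k t t' hk]
    congr 1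
    refine Finset.sum_congr rfl fun x _ => ?_
    split_ifs
    · exact h.2.2.2.symm
    · exact h'.2.2.2.symm

theorem t_B : S_B := by
  intro n c k s hc hk hs hm
  obtain ⟨m, hm⟩ := hm
  obtain ⟨d, rfl⟩ := Nat.exists_eq_add_of_le hk
  have hd : k + d - k = d := by omega
  interval_cases c
  · apply fin_of hm hk ok0 ok0'
    rw [hd]
    generalize (k + d) * (k + d - 1) = N at *
    omega
  · apply fin_of hm hk ok1 ok1'
    rw [hd]
    generalize (k + d) * (k + d - 1) = N at *
    omega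
  · apply fin_of hm hk ok2 ok2'
    rw [hd]
    generalize (k + d) * (k + d - 1) = N at *
    omega

end Pool.Agent.U884.VS
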